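import Mathlib
import Pool.Agent.Helper650.CTDefs
import Pool.Agent.Helper650.UB5
import Pool.Agent.Helper745.HB8

set_option autoImplicit false

namespace Pool.Agent.Results.MP_ea9c5d_co.SharpOrder

open Filter Pool.Agent.Helper650.CT

/-- The order of growth of `f n` is `n log n`: `f n = Θ(n log n)`, with the explicit bounds
`(1/40000) n log n ≤ f n ≤ 73 n log n` for all large `n`. The lower bound comes from `n`-point
sets with no four collinear, at least `(1/40000) n log n` collinear triples and no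
self-intersecting path of length 3. In particular `f n` is not `O(n √(log n))`. -/
theorem result :
    ((fun n : ℕ => (f n : ℝ)) =Θ[atTop] (fun n : ℕ => (n : ℝ) * Real.log n)) ∧
    (∀ᶠ n : ℕ in atTop, (1 / 40000) * (n : ℝ) * Real.log n ≤ (f n : ℝ) ∧
      (f n : ℝ) ≤ 73 * (n : ℝ) * Real.log n) ∧
    (∀ᶠ n : ℕ in atTop, ∃ P : Finset (ℝ × ℝ), P.card = n ∧ NoFourCollinear P ∧
      ¬ HasSelfIntersectingPath P ∧
      (1 / 40000) * (n : ℝ) * Real.log n ≤ ((collinearTriples P).card : ℝ)) ∧
    ¬ ((fun n : ℕ => (f n : ℝ)) =O[atTop] (fun n : ℕ => (n : ℝ) * Real.sqrt (Real.log n))) :=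
  ⟨Pool.Agent.Helper745.HB.theta,
    Pool.Agent.Helper745.HB.lower'.and Pool.Agent.Helper650.UB.upper,
    Pool.Agent.Helper745.HB.config, not_bigO⟩

end Pool.Agent.Results.MP_ea9c5d_co.SharpOrder
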