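import Mathlib
import Pool.Agent.Helper650.CTDefs
import Pool.Agent.Helper650.CT9
import Pool.Agent.Helper650.UB5

set_option autoImplicit false

namespace Pool.Agent.Results.MP_ea9c5d_co.TwoSided

open Filter Pool.Agent.Helper650.CT

/-- Two-sided bounds: for constants `c, C > 0` and all large `n`,
`c n log n / log log n ≤ f n ≤ C n log n`. In particular `f n` is not `O(n √(log n))`. -/
theorem result :
    (∃ c C : ℝ, 0 < c ∧ 0 < C ∧ ∀ᶠ n : ℕ in atTop,
      c * (n : ℝ) * Real.log n / Real.log (Real.log n) ≤ (f n : ℝ) ∧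
        (f n : ℝ) ≤ C * (n : ℝ) * Real.log n) ∧
    ¬ ((fun n : ℕ => (f n : ℝ)) =O[atTop] (fun n : ℕ => (n : ℝ) * Real.sqrt (Real.log n))) :=
  ⟨⟨1 / 200, 73, by norm_num, by norm_num, lower.and Pool.Agent.Helper650.UB.upper⟩, not_bigO⟩

end Pool.Agent.Results.MP_ea9c5d_co.TwoSided
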